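import Pool.Agent.H8.BM.Main

/-!
# MP_6ac1f4_lc: Berge multiplication is exponential in every order and every bracketing

`Hits`, `tr` and `Mult` are defined in `Pool/Agent/H8/BM/Defs.lean`.
-/

namespace Pool.Agent.Results.MP_6ac1f4_lc.BergeMultiplication

open Pool.Agent.H8.BM

theorem result (M : ℕ) :
    ∃ (V : Type) (_ : Fintype V) (_ : DecidableEq V) (A : Finset (Finset V)),
      M ≤ Fintype.card V ∧ tr (tr A) = A ∧
      ∀ t : ℕ, Mult t A ∨ Mult t (tr A) →
        (2 : ℝ) ^ (((Fintype.card V + A.card + (tr A).card : ℕ) : ℝ) ^ (1 / 12 : ℝ))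
          ≤ (t : ℝ) :=
  main M

end Pool.Agent.Results.MP_6ac1f4_lc.BergeMultiplication
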