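import Pool.Agent.H8.CB.Res

/-!
# Branching with caching is superpolynomial for monotone dualization

For every `ε > 0` there are `c > 0` and dual pairs `(A, X)` of arbitrarily large size
`N = |A| + |X|` such that every run of subproblems, each one obtained from earlier ones by
branching on a vertex or by splitting into parts on disjoint vertex sets, with all the correct
subproblems in which one side has fewer than `N ^ (1 - ε)` members given for free, has length at
least `exp (c * (log N / log log N) ^ 2)` if it reaches `(A, X)`.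
-/

namespace Pool.Agent.Results.MP_6ac1f4_lc.CachedBranching

open Pool.Agent.H8.CB

theorem result (ε : ℝ) (hε : 0 < ε) : ∃ c : ℝ, 0 < c ∧ ∀ N₀ : ℕ,
    ∃ (V : Type) (_ : Fintype V) (_ : DecidableEq V) (A X : Finset (Finset V)) (N : ℕ),
      IsTr A X ∧ IsTr X A ∧ N = A.card + X.card ∧ N₀ ≤ N ∧
      ∀ (L : ℕ) (P : Fin L → Pool.Agent.H8.CB.Sub V), IsRun ((N : ℝ) ^ (1 - ε)) P → (∃ i, P i = (A, X)) →
        Real.exp (c * (Real.log N / Real.log (Real.log N)) ^ 2) ≤ (L : ℝ) :=
  cached ε hε

end Pool.Agent.Results.MP_6ac1f4_lc.CachedBranching
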